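import Mathlib
import Pool.Agent.Work.MP_3c5c20_lc.Lang

/-!
# Product depth of arithmetic expressions
-/

set_option autoImplicit false

namespace Pool.Agent.PIT

/-- `E.dep false` is the product depth of `E`: the largest number of blocks of consecutive
multiplications on a path from the root to a leaf. (`E.dep true` is the same number when `E` is a
factor of a multiplication which is already counted: the block of the root of `E` is not counted.)
Sums, differences, variables and constants are not counted. -/
def Ex.dep : Bool → Ex → ℕ
  | _, .var _ => 0
  | _, .const _ _ _ => 0
  | _, .add a b => max (a.dep false) (b.dep false)
  | _, .sub a b => max (a.dep false) (b.dep false)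
  | m, .mul a b => (if m then 0 else 1) + max (a.dep true) (b.dep true)

end Pool.Agent.PIT
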