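import Pool.Agent.Work.MP_3c5c20_lc.QP.AllHit
import Pool.Agent.Work.MP_3c5c20_lc.Bd.B03
import Pool.Agent.Work.MP_3c5c20_lc.Bd.B02
import Pool.Agent.Work.MP_3c5c20_lc.Bd.B01

/-!
# Quasi-polynomial identity testing for expressions of bounded product depth: the main theorem
-/

set_option autoImplicit false

namespace Pool.Agent.Work.MP_3c5c20_lc.QP

open Pool.Agent.Work.MP_499dc6_lc.CD Pool.Agent.Work.MP_499dc6_lc.CDG
  Pool.Agent.Work.MP_3c5c20_lc.PIT

theorem full_Gval : S_Gval := pr_Gval pr_WalkDP pr_TauN pr_Polm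

theorem full_Final : S_Final :=
  pr_Final full_HitG pr_CircSubstG pr_Dig pr_Pos pr_GridAlt pr_DigEx full_Gval pr_GNle pr_ExCirc
    (pr_Num pr_TauN.2) (pr_AlgPT pr_GvalPT) pr_Sound

end Pool.Agent.Work.MP_3c5c20_lc.QP
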