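import Pool.Agent.Work.MP_499dc6_lc.Bd.B07
import Pool.Agent.Work.MP_499dc6_lc.Bd.B05
import Pool.Agent.Work.MP_3c5c20_lc.Bd.B01
import Pool.Agent.Work.MP_3c5c20_lc.PIT.I_PWLow

/-!
# The hitting property, without hypotheses
-/

set_option autoImplicit false

namespace Pool.Agent.Work.MP_3c5c20_lc.QP

open Pool.Agent.Work.MP_499dc6_lc.CD Pool.Agent.Work.MP_499dc6_lc.CDG
  Pool.Agent.Work.MP_3c5c20_lc.PIT

theorem full_ColBB : S_ColBB := pr_ColBB pr_BBsmul (pr_BBmul pr_BiMul) pr_BBone pr_ColCount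

theorem full_CircG : S_CircG :=
  pr_CircG all_Prod all_SpanBB (pr_Step pr_Phi) pr_RgBound (pr_FunComp pr_HcMul) full_ColBB
    pr_BBsmul (pr_BBphi pr_BiDec) pr_Phi

theorem full_CoefBB : S_CoefBB := pr_CoefBB pr_BBsmul full_CircG pr_CircSubstG pr_Interp

theorem full_RootBB : S_RootBB :=
  pr_RootBB (pr_BBphi pr_BiDec) (pr_Step pr_Phi) pr_RgBound pr_RgMono pr_Mult pr_TayHasse
    (pr_RootSpan pr_HcMul) (pr_RSBB pr_BBsmul (pr_BBmul pr_BiMul) pr_BBone pr_RSCount) pr_GenPt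
    full_CoefBB pr_BBsmul

theorem full_NoRoot : S_NoRoot :=
  pr_NoRoot full_RootBB (pr_PWLow all_BBrank all_Hard) (pr_PWhom pr_BiMul pr_TauLt) pr_BiHom
    pr_TransTop pr_RgBound

theorem full_HitG : S_HitG := pr_HitG full_NoRoot pr_Special pr_CircSubstG

end Pool.Agent.Work.MP_3c5c20_lc.QP
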