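import Pool.Agent.Work.MP_3c5c20_lc.QP.Root1
import Pool.Agent.Work.MP_499dc6_lc.Bd.B03

/-!
# Roots: the number of bipartite partitions, proof of `S_SpanBB2`
-/

set_option autoImplicit false

namespace Pool.Agent.Work.MP_3c5c20_lc.QP

open MvPolynomial
open Pool.Agent.Work.MP_499dc6_lc.CD (BB pr_BBmul pr_BBone pr_BBsmul pr_BiMul)

theorem root_geom (t : ℝ) (ht : 0 < t) (n : ℕ) :
    ∑ c ∈ Finset.range n, (Real.exp (-t)) ^ c ≤ Real.exp (6 / t ^ 3) := by
  have hx0 : 0 < Real.exp (-t) := Real.exp_pos _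
  have hx1 : Real.exp (-t) < 1 := by
    rw [Real.exp_lt_one_iff]
    linarith
  have h1 : ∑ c ∈ Finset.range n, (Real.exp (-t)) ^ c ≤ (1 - Real.exp (-t))⁻¹ := by
    rw [← tsum_geometric_of_lt_one hx0.le hx1]
    exact (summable_geometric_of_lt_one hx0.le hx1).sum_le_tsum _ (fun i _ => by positivity)
  have h2 : (1 - Real.exp (-t))⁻¹ = 1 + (Real.exp t - 1)⁻¹ := by
    have e1 : Real.exp t ≠ 0 := (Real.exp_pos _).ne'
    have e2 : Real.exp t - 1 ≠ 0 := by
      have := Real.add_one_lt_exp ht.ne'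
      linarith
    rw [Real.exp_neg]
    field_simp
    ring
  have h3 : (Real.exp t - 1)⁻¹ ≤ 6 / t ^ 3 := by
    have h4 : t ^ 3 / 6 ≤ Real.exp t - 1 := by
      have h5 := Real.sum_le_exp_of_nonneg ht.le 4
      simp only [Finset.sum_range_succ, Finset.sum_range_zero, Nat.factorial] at h5
      norm_num at h5
      nlinarith [sq_nonneg t]
    have h6 : (Real.exp t - 1)⁻¹ ≤ (t ^ 3 / 6)⁻¹ := inv_anti₀ (by positivity) h4
    rwa [inv_div] at h6
  have h4 := Real.add_one_le_exp (6 / t ^ 3)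
  linarith

theorem root_sum1 (a : ℝ) (ha : 1 ≤ a) (n : ℕ) :
    ∑ i ∈ Finset.range (n + 1), 1 / (a + i) ^ 3 ≤ 2 / a ^ 2 - 1 / (a + n) ^ 2 := by
  induction n with
  | zero =>
    simp only [zero_add, Finset.range_one, Finset.sum_singleton, Nat.cast_zero, add_zero]
    have h1 : 1 / a ^ 3 ≤ 1 / a ^ 2 := by
      apply one_div_le_one_div_of_le (by positivity)
      exact pow_le_pow_right₀ ha (by norm_num)
    have h2 : 2 / a ^ 2 - 1 / a ^ 2 = 1 / a ^ 2 := by ring
    linarith
  | succ n ih =>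
    rw [Finset.sum_range_succ]
    set m : ℝ := a + n with hm
    have hm1 : 1 ≤ m := by
      have : (0 : ℝ) ≤ n := Nat.cast_nonneg n
      linarith
    have e : a + ((n + 1 : ℕ) : ℝ) = m + 1 := by
      push_cast
      rw [hm]
      ring
    rw [e]
    have h1 : 1 / (m + 1) ^ 3 ≤ 1 / m ^ 2 - 1 / (m + 1) ^ 2 := by
      rw [div_sub_div _ _ (by positivity) (by positivity), div_le_div_iff₀ (by positivity)
        (by positivity)]
      have : (0 : ℝ) ≤ (m + 1) ^ 2 := by positivity
      nlinarith [mul_nonneg this (by nlinarith : (0 : ℝ) ≤ (2 * m + 1) * (m + 1) - m ^ 2)]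
    linarith

theorem root_sum2 (n : ℕ) :
    ∑ a ∈ Finset.Icc 1 (n + 1), 2 / (a : ℝ) ^ 2 ≤ 4 - 2 / ((n : ℝ) + 1) := by
  induction n with
  | zero => norm_num
  | succ n ih =>
    rw [Finset.sum_Icc_succ_top (by omega)]
    have hn : (0 : ℝ) ≤ n := Nat.cast_nonneg n
    have h1 : 2 / (((n + 1 + 1 : ℕ) : ℝ)) ^ 2 ≤
        2 / ((n : ℝ) + 1) - 2 / (((n + 1 : ℕ) : ℝ) + 1) := by
      push_cast
      rw [div_sub_div _ _ (by positivity) (by positivity), div_le_div_iff₀ (by positivity)
        (by positivity)]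
      nlinarith
    linarith

theorem root_sum3 (n : ℕ) : ∑ a ∈ Finset.Icc 1 n, 2 / (a : ℝ) ^ 2 ≤ 4 := by
  cases n with
  | zero => norm_num
  | succ n =>
    have h1 := root_sum2 n
    have h2 : (0 : ℝ) ≤ 2 / ((n : ℝ) + 1) := by positivity
    linarith

/-- the box of pairs -/
def root_U (k : ℕ) : Finset (ℕ × ℕ) := Finset.range (2 * k + 1) ×ˢ Finset.Icc 1 k

/-- the multiplicity functions -/
noncomputable def root_I (k : ℕ) : Finset (↥(root_U k) → ℕ) := by
  classical
  exact (Fintype.piFinset fun _ : ↥(root_U k) => Finset.range (k + 1)).filter fun c =>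
    (∑ p, c p * p.1.2 = k) ∧ ∑ p, c p * p.1.1 ≤ 2 * k

theorem root_card (k : ℕ) (e : ℝ) (he : 0 < e) :
    ((root_I k).card : ℝ) ≤ Real.exp (3 * e * k + 24 / e ^ 3) := by
  classical
  set x : ↥(root_U k) → ℝ := fun p => Real.exp (-(e * (p.1.2 + p.1.1))) with hx
  have h1 : ∀ c ∈ root_I k, (1 : ℝ) ≤ Real.exp (3 * e * k) * ∏ p, x p ^ c p := by
    intro c hc
    unfold root_I at hc
    rw [Finset.mem_filter] at hc
    obtain ⟨-, hc1, hc2⟩ := hc
    have e1 : ∏ p, x p ^ c p = Real.exp (-(e * ((∑ p, c p * p.1.2 : ℕ) +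
        (∑ p, c p * p.1.1 : ℕ) : ℝ))) := by
      have e2 : ∀ p : ↥(root_U k), x p ^ c p =
          Real.exp (-(e * ((c p * p.1.2 : ℕ) + (c p * p.1.1 : ℕ) : ℝ))) := by
        intro p
        rw [hx, ← Real.exp_nat_mul]
        congr 1
        push_cast
        ring
      rw [Finset.prod_congr rfl fun p _ => e2 p, ← Real.exp_sum]
      congr 1
      rw [Finset.sum_neg_distrib, ← Finset.mul_sum, Finset.sum_add_distrib, ← Nat.cast_sum,
        ← Nat.cast_sum]
    rw [e1, ← Real.exp_add, hc1]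
    have h2 : ((∑ p, c p * p.1.1 : ℕ) : ℝ) ≤ 2 * k := by exact_mod_cast hc2
    apply Real.one_le_exp
    nlinarith [mul_le_mul_of_nonneg_left h2 he.le]
  have h2 : ((root_I k).card : ℝ) ≤ Real.exp (3 * e * k) * ∑ c ∈ root_I k, ∏ p, x p ^ c p := by
    rw [Finset.mul_sum]
    calc ((root_I k).card : ℝ) = ∑ c ∈ root_I k, (1 : ℝ) := by
          rw [Finset.sum_const, nsmul_eq_mul, mul_one]
      _ ≤ _ := Finset.sum_le_sum h1
  have h3 : ∑ c ∈ root_I k, ∏ p, x p ^ c p ≤
      ∑ c ∈ Fintype.piFinset fun _ : ↥(root_U k) => Finset.range (k + 1), ∏ p, x p ^ c p := by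
    unfold root_I
    refine Finset.sum_le_sum_of_subset_of_nonneg (Finset.filter_subset _ _) ?_
    exact fun _ _ _ => Finset.prod_nonneg fun _ _ => by positivity
  rw [← Finset.prod_univ_sum (fun _ : ↥(root_U k) => Finset.range (k + 1))
    (fun p c => x p ^ c)] at h3
  have hpos : ∀ p : ↥(root_U k), (0 : ℝ) < (p.1.2 : ℝ) + p.1.1 := by
    intro p
    have h := p.2
    unfold root_U at h
    rw [Finset.mem_product, Finset.mem_Icc] at h
    have h4 : (1 : ℝ) ≤ (p.1.2 : ℝ) := by exact_mod_cast h.2.1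
    have h5 : (0 : ℝ) ≤ (p.1.1 : ℝ) := Nat.cast_nonneg _
    linarith
  have h4 : ∏ p : ↥(root_U k), ∑ c ∈ Finset.range (k + 1), x p ^ c ≤
      ∏ p : ↥(root_U k), Real.exp (6 / (e * (p.1.2 + p.1.1)) ^ 3) :=
    Finset.prod_le_prod (fun _ _ => Finset.sum_nonneg fun _ _ => by positivity)
      (fun p _ => root_geom _ (mul_pos he (hpos p)) _)
  have h5 : ∏ p : ↥(root_U k), Real.exp (6 / (e * (p.1.2 + p.1.1)) ^ 3) ≤
      Real.exp (24 / e ^ 3) := by
    rw [← Real.exp_sum, Real.exp_le_exp]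
    have e1 : ∀ p : ↥(root_U k), 6 / (e * (p.1.2 + p.1.1)) ^ 3 =
        6 / e ^ 3 * (1 / ((p.1.2 : ℝ) + p.1.1) ^ 3) := by
      intro p
      rw [mul_pow]
      field_simp
    rw [Finset.sum_congr rfl fun p _ => e1 p, ← Finset.mul_sum]
    have e2 : ∑ p : ↥(root_U k), 1 / ((p.1.2 : ℝ) + p.1.1) ^ 3 ≤ 4 := by
      rw [Finset.sum_coe_sort (root_U k) (fun p : ℕ × ℕ => 1 / ((p.2 : ℝ) + p.1) ^ 3)]
      unfold root_U
      rw [Finset.sum_product_right]
      refine le_trans (Finset.sum_le_sum fun a ha => ?_) (root_sum3 k)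
      have ha1 : (1 : ℝ) ≤ (a : ℝ) := by
        exact_mod_cast (Finset.mem_Icc.mp ha).1
      have h6 := root_sum1 (a : ℝ) ha1 (2 * k)
      have h7 : (0 : ℝ) ≤ 1 / ((a : ℝ) + (2 * k : ℕ)) ^ 2 := by positivity
      simp only
      linarith
    calc 6 / e ^ 3 * ∑ p : ↥(root_U k), 1 / ((p.1.2 : ℝ) + p.1.1) ^ 3 ≤ 6 / e ^ 3 * 4 :=
          mul_le_mul_of_nonneg_left e2 (by positivity)
      _ = 24 / e ^ 3 := by ring
  calc ((root_I k).card : ℝ) ≤ Real.exp (3 * e * k) * ∑ c ∈ root_I k, ∏ p, x p ^ c p := h2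
    _ ≤ Real.exp (3 * e * k) * Real.exp (24 / e ^ 3) :=
        mul_le_mul_of_nonneg_left (h3.trans (h4.trans h5)) (Real.exp_pos _).le
    _ = _ := by rw [← Real.exp_add]

/-- the generating set is finite -/
theorem root_mem {A : Type} [CommRing A] (v : ℕ × ℕ → A) (k : ℕ) (M : Multiset (ℕ × ℕ))
    (h1 : ∀ p ∈ M, 1 ≤ p.2) (h2 : (M.map Prod.snd).sum = k) (h3 : (M.map Prod.fst).sum ≤ 2 * k) :
    ∃ c ∈ root_I k, (M.map v).prod = ∏ p : ↥(root_U k), v p.1 ^ c p := by
  classical
  have hle2 : ∀ p ∈ M, p.2 ≤ k := by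
    intro p hp
    rw [← h2]
    exact Multiset.single_le_sum (fun _ _ => Nat.zero_le _) _ (Multiset.mem_map_of_mem _ hp)
  have hle1 : ∀ p ∈ M, p.1 ≤ 2 * k := by
    intro p hp
    exact (Multiset.single_le_sum (fun _ _ => Nat.zero_le _) _
      (Multiset.mem_map_of_mem _ hp)).trans h3
  have hsub : M.toFinset ⊆ root_U k := by
    intro p hp
    rw [Multiset.mem_toFinset] at hp
    unfold root_U
    rw [Finset.mem_product, Finset.mem_range, Finset.mem_Icc]
    exact ⟨by have := hle1 p hp; omega, h1 p hp, hle2 p hp⟩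
  have hcard : ∀ p, M.count p ≤ k := by
    intro p
    have g1 : M.count p ≤ Multiset.card M := Multiset.count_le_card _ _
    have g2 := Multiset.card_nsmul_le_sum (s := M.map Prod.snd) (a := 1) (fun x hx => by
      rw [Multiset.mem_map] at hx
      obtain ⟨p, hp, rfl⟩ := hx
      exact h1 p hp)
    rw [Multiset.card_map, h2] at g2
    have g3 : Multiset.card M ≤ k := by simpa using g2
    omega
  refine ⟨fun p => M.count p.1, ?_, ?_⟩
  · unfold root_I
    rw [Finset.mem_filter, Fintype.mem_piFinset]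
    refine ⟨fun p => Finset.mem_range.mpr (by have := hcard p.1; omega), ?_, ?_⟩
    · rw [Finset.sum_coe_sort (root_U k) (fun p : ℕ × ℕ => M.count p * p.2)]
      refine Eq.trans ?_ h2
      rw [Finset.sum_multiset_map_count]
      symm
      apply Finset.sum_subset hsub
      intro p _ hp
      rw [Multiset.mem_toFinset, ← Multiset.count_eq_zero] at hp
      rw [hp, zero_smul]
    · rw [Finset.sum_coe_sort (root_U k) (fun p : ℕ × ℕ => M.count p * p.1)]
      refine le_trans (le_of_eq ?_) h3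
      rw [Finset.sum_multiset_map_count]
      symm
      apply Finset.sum_subset hsub
      intro p _ hp
      rw [Multiset.mem_toFinset, ← Multiset.count_eq_zero] at hp
      rw [hp, zero_smul]
  · rw [Finset.prod_coe_sort (root_U k) (fun p : ℕ × ℕ => v p ^ M.count p),
      Finset.prod_multiset_map_count]
    apply Finset.prod_subset hsub
    intro p _ hp
    rw [Multiset.mem_toFinset, ← Multiset.count_eq_zero] at hp
    rw [hp, pow_zero]

theorem root_BBprod {Y Z K : Type} [Fintype Y] [Fintype Z] [Field K] {al be : ℝ} {ι : Type}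
    (s : Finset ι) (f : ι → MvPolynomial (Y ⊕ Z) K) (c : ι → ℝ)
    (h : ∀ i ∈ s, BB al be (f i) (c i)) : BB al be (∏ i ∈ s, f i) (∏ i ∈ s, c i) := by
  classical
  induction s using Finset.induction_on with
  | empty => simpa using pr_BBone Y Z K al be
  | insert a s ha ih =>
    rw [Finset.prod_insert ha, Finset.prod_insert ha]
    exact pr_BBmul pr_BiMul _ _ _ _ _ _ _ _ _ (h a (Finset.mem_insert_self a s))
      (ih fun i hi => h i (Finset.mem_insert_of_mem hi))

theorem root_BBpow {Y Z K : Type} [Fintype Y] [Fintype Z] [Field K] {al be : ℝ}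
    {f : MvPolynomial (Y ⊕ Z) K} {c : ℝ} (h : BB al be f c) (n : ℕ) :
    BB al be (f ^ n) (c ^ n) := by
  induction n with
  | zero => simpa using pr_BBone Y Z K al be
  | succ n ih =>
    rw [pow_succ, pow_succ]
    exact pr_BBmul pr_BiMul _ _ _ _ _ _ _ _ _ ih h

theorem root_spanBB2 : S_SpanBB2 := by
  classical
  intro Y Z _ _ K _ al be v f lam k hlam hv hf
  -- finite span
  have h1 : f ∈ Submodule.span K (((root_I k).image fun c => ∏ p : ↥(root_U k), v p.1 ^ c p :
      Finset (MvPolynomial (Y ⊕ Z) K)) : Set (MvPolynomial (Y ⊕ Z) K)) := by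
    unfold PS2 at hf
    refine Submodule.span_mono ?_ hf
    rintro x ⟨M, g1, g2, g3, rfl⟩
    obtain ⟨c, hc, hcM⟩ := root_mem v k M g1 g2 g3
    rw [Finset.coe_image]
    exact ⟨c, hc, hcM.symm⟩
  rw [Submodule.mem_span_finset] at h1
  obtain ⟨a, -, ha⟩ := h1
  -- every product
  have h2 : ∀ c ∈ root_I k, BB al be (∏ p : ↥(root_U k), v p.1 ^ c p)
      (Real.exp (-(lam * k))) := by
    intro c hc
    have hU : ∀ p : ↥(root_U k), 1 ≤ p.1.2 := by
      intro p
      have h := p.2
      unfold root_U at h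
      rw [Finset.mem_product, Finset.mem_Icc] at h
      exact h.2.1
    have h3 := root_BBprod (al := al) (be := be) Finset.univ
      (fun p : ↥(root_U k) => v p.1 ^ c p) (fun p => Real.exp (-(lam * p.1.2)) ^ c p)
      (fun p _ => root_BBpow (hv p.1 (hU p)) (c p))
    refine h3.mono (le_of_eq ?_)
    unfold root_I at hc
    rw [Finset.mem_filter] at hc
    have e2 : ∀ p : ↥(root_U k), Real.exp (-(lam * p.1.2)) ^ c p =
        Real.exp (-(lam * (c p * p.1.2 : ℕ))) := by
      intro p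
      rw [← Real.exp_nat_mul]
      congr 1
      push_cast
      ring
    rw [Finset.prod_congr rfl fun p _ => e2 p, ← Real.exp_sum]
    congr 1
    rw [Finset.sum_neg_distrib, ← Finset.mul_sum, ← Nat.cast_sum, hc.2.1]
  have h3 : ∀ S : Finset (MvPolynomial (Y ⊕ Z) K),
      (∀ x ∈ S, BB al be x (Real.exp (-(lam * k)))) →
      BB al be (∑ x ∈ S, a x • x) ((S.card : ℝ) * Real.exp (-(lam * k))) := by
    intro S
    induction S using Finset.induction_on with
    | empty =>
      intro _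
      simpa using BB.zero (al := al) (be := be) (K := K)
    | insert x S hx ih =>
      intro hS
      rw [Finset.sum_insert hx, Finset.card_insert_of_notMem hx]
      have g1 := pr_BBsmul Y Z K al be _ _ (a x) (hS x (Finset.mem_insert_self x S))
      rw [← MvPolynomial.smul_eq_C_mul] at g1
      refine (g1.add (ih fun y hy => hS y (Finset.mem_insert_of_mem hy))).mono (le_of_eq ?_)
      push_cast
      ring
  have h4 := h3 ((root_I k).image fun c => ∏ p : ↥(root_U k), v p.1 ^ c p) (fun x hx => by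
    rw [Finset.mem_image] at hx
    obtain ⟨c, hc, rfl⟩ := hx
    exact h2 c hc)
  rw [ha] at h4
  refine h4.mono ?_
  have h5 : ((((root_I k).image fun c => ∏ p : ↥(root_U k), v p.1 ^ c p).card : ℕ) : ℝ) ≤
      Real.exp (3 * (lam / 6) * k + 24 / (lam / 6) ^ 3) :=
    le_trans (by exact_mod_cast Finset.card_image_le) (root_card k (lam / 6) (by positivity))
  calc _ ≤ Real.exp (3 * (lam / 6) * k + 24 / (lam / 6) ^ 3) * Real.exp (-(lam * k)) :=
        mul_le_mul_of_nonneg_right h5 (Real.exp_pos _).le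
    _ ≤ Real.exp (6000 / lam ^ 3 - lam / 2 * k) := by
        rw [← Real.exp_add, Real.exp_le_exp]
        have e1 : 24 / (lam / 6) ^ 3 = 5184 / lam ^ 3 := by
          field_simp
          norm_num
        have e2 : 5184 / lam ^ 3 ≤ 6000 / lam ^ 3 := by
          apply div_le_div_of_nonneg_right _ (by positivity)
          norm_num
        rw [e1]
        linarith

end Pool.Agent.Work.MP_3c5c20_lc.QP
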