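import Pool.Agent.Work.MP_3c5c20_lc.QP.Root2
import Pool.Agent.Work.MP_3c5c20_lc.QP.Root3
import Pool.Agent.Work.MP_499dc6_lc.Bd.B03
import Pool.Agent.Work.MP_499dc6_lc.Bd.B02
import Pool.Agent.Work.MP_499dc6_lc.Bd.B07

/-!
# Quasi-polynomial identity testing: the measure of a root of a circuit

If a circuit polynomial `R`, read as a polynomial in one distinguished variable, vanishes at the
hard polynomial `g` of degree `k`, then `g` has small measure.
-/

set_option autoImplicit false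

namespace Pool.Agent.Work.MP_3c5c20_lc.QP

open MvPolynomial Pool.Agent.Work.MP_499dc6_lc.CD

theorem core_BBmul : S_BBmul := pr_BBmul pr_BiMul
theorem core_BBphi : S_BBphi := pr_BBphi pr_BiDec
theorem core_Step : S_Step := pr_Step pr_Phi
theorem core_SpanBB : S_SpanBB := pr_SpanBB pr_BBsmul core_BBmul pr_BBone pr_Part
theorem core_Prod : S_Prod := pr_Prod (pr_LogDer pr_HcMul) pr_Span core_SpanBB pr_BBsmul
theorem core_LocalBB : S_LocalBB := pr_LocalBB pr_BBsmul core_BBmul pr_BBone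
theorem core_Ckt : S_Ckt :=
  pr_Ckt core_Prod core_SpanBB core_LocalBB core_Step pr_RdBound pr_BBsmul core_BBphi pr_Phi
theorem core_BBrank : S_BBrank := pr_BBrank pr_MatMul pr_MatZero pr_Grow1 pr_Grow2 pr_BiMul
theorem core_Hard : S_Hard := pr_Hard (pr_Conf pr_Grow1) pr_Walk pr_Tau pr_TauLt pr_CardWalk
theorem core_PWhom : S_PWhom := pr_PWhom pr_BiMul pr_TauLt

/-- A polynomial with small measure at the top is not the hard polynomial. -/
theorem core_contra (K : Type) [Field K] (m n : ℕ) (z0 : Fin n) (hm : 30000 ≤ m)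
    (hn : n = m ^ 10) (B sg lm : ℝ) (hB1 : 1 ≤ B) (hBm : B ^ 3 ≤ m) (hsg : sg ≤ B)
    (hlm : 0 < lm) (hlmB : 1 / lm ≤ B)
    (hBB : BB (alp n) (√2 * alp n) (PW K m n z0)
      (Real.exp (sg - lm * ((aa m + m : ℕ) : ℝ)))) : False := by
  have hm1 : 1 ≤ m := by omega
  have hm2 : 2 ≤ m := by omega
  have hmR : (30000 : ℝ) ≤ m := by exact_mod_cast hm
  have hnm : 10 * m ≤ n := by
    rw [hn]
    calc 10 * m ≤ m ^ 9 * m := by
          apply Nat.mul_le_mul_right
          calc 10 ≤ m ^ 1 := by rw [pow_one]; omega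
            _ ≤ m ^ 9 := Nat.pow_le_pow_right (by omega) (by norm_num)
      _ = m ^ 10 := by ring
  have hn1 : 1 ≤ n := by omega
  have hcond : 10 * (m : ℝ) ^ 2 ≤ (n : ℝ) ^ (1 - 1 / √2) := by
    have hs := sqrt2_bounds
    have h1 : (0.29 : ℝ) ≤ 1 - 1 / √2 := by
      have : 1 / √2 ≤ 0.71 := by
        rw [div_le_iff₀ (by positivity)]
        linarith [hs.1]
      linarith
    have h2 : (n : ℝ) ^ (0.29 : ℝ) ≤ (n : ℝ) ^ (1 - 1 / √2) :=
      Real.rpow_le_rpow_of_exponent_le (by exact_mod_cast hn1) h1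
    refine le_trans ?_ h2
    have h3 : (n : ℝ) ^ (0.29 : ℝ) = (m : ℝ) ^ (2.9 : ℝ) := by
      rw [hn]
      push_cast
      rw [← Real.rpow_natCast, ← Real.rpow_mul (by positivity)]
      norm_num
    rw [h3]
    have h4 : (m : ℝ) ^ (2.9 : ℝ) = (m : ℝ) ^ 2 * (m : ℝ) ^ (0.9 : ℝ) := by
      rw [← Real.rpow_natCast, ← Real.rpow_add (by positivity)]
      norm_num
    rw [h4, mul_comm]
    apply mul_le_mul_of_nonneg_left _ (by positivity)
    calc (10 : ℝ) ≤ (30000 : ℝ) ^ (1 / 2 : ℝ) := by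
          rw [← Real.sqrt_eq_rpow]
          apply Real.le_sqrt_of_sq_le
          norm_num
      _ ≤ (m : ℝ) ^ (1 / 2 : ℝ) := by
          apply Real.rpow_le_rpow (by norm_num) hmR (by norm_num)
      _ ≤ (m : ℝ) ^ (0.9 : ℝ) := by
          apply Real.rpow_le_rpow_of_exponent_le (by linarith) (by norm_num)
  obtain ⟨I, hI1, hI2, r, c, hsub, hcard⟩ := core_Hard K m n (LL m n) (m * n) z0 hm1 hn1
    (cond_rY hm2 hnm) (cond_rZ hm2 hnm) hcond
  have hrk : Fintype.card I ≤
      (mat (PW K m n z0) (LL m n + aa m) (m * n) (LL m n) (m * n + m)).rank := by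
    have h1 := Matrix.rank_submatrix_le (mat (PW K m n z0) (LL m n + aa m) (m * n) (LL m n)
      (m * n + m)) r c
    rw [hsub, Matrix.rank_one] at h1
    exact h1
  have : Nonempty (Fin (aa m) × Fin n × Fin n) :=
    ⟨(⟨0, by have := aa_pos hm1; omega⟩, ⟨0, hn1⟩, ⟨0, hn1⟩)⟩
  have : Nonempty (Fin m × Fin n × Fin n) := ⟨(⟨0, hm1⟩, ⟨0, hn1⟩, ⟨0, hn1⟩)⟩
  have hcY : Fintype.card (Fin (aa m) × Fin n × Fin n) = aa m * n * n := by
    simp only [Fintype.card_prod, Fintype.card_fin]; ring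
  have hcZ : Fintype.card (Fin m × Fin n × Fin n) = m * n * n := by
    simp only [Fintype.card_prod, Fintype.card_fin]; ring
  have hup := core_BBrank (Fin (aa m) × Fin n × Fin n) (Fin m × Fin n × Fin n) K (alp n)
    (√2 * alp n) (PW K m n z0) _ (LL m n) (m * n) (aa m) m
    (by have := aa_pos hm1; omega)
    (by rw [hcY]; push_cast; exact exp_cond1 hm2 hnm)
    (by rw [hcZ, mul_assoc]; exact cond_be) hBB
  rw [hcY, hcZ] at hup
  refine num_contra pr_Grow2 m n hm hn B sg lm hB1 hBm hsg hlm hlmB ?_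
  refine hcard.trans ?_
  refine le_trans (by exact_mod_cast hrk) (hup.trans ?_)
  push_cast
  exact le_rfl

end Pool.Agent.Work.MP_3c5c20_lc.QP
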