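import Pool.Agent.Work.MP_3c5c20_lc.QP.Core1

/-!
# Quasi-polynomial identity testing: the measure of a root of a family of circuits
-/

set_option autoImplicit false

namespace Pool.Agent.Work.MP_3c5c20_lc.QP

open MvPolynomial Pool.Agent.Work.MP_499dc6_lc.CD

theorem core_tr_ckt {σ K : Type} [Field K] {s e r : ℕ} {F : Fin s → MvPolynomial σ K}
    {d : Fin s → ℕ} (h : IsCkt e r F d) (y : σ → K) : IsCkt e r (fun i => tr y (F i)) d := by
  have h1 := pr_CktSubst σ σ K s e 1 r F d (fun j => X j + C (y j)) h (fun i => by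
    refine (totalDegree_add _ _).trans ?_
    rw [totalDegree_X, totalDegree_C]
    simp)
  rw [mul_one] at h1
  exact h1

/-- One point where finitely many nonzero polynomials do not vanish. -/
theorem core_point {σ K ι : Type} [Field K] [CharZero K] [Finite ι]
    (F : ι → MvPolynomial σ K) (H : MvPolynomial σ K) (hH : H ≠ 0) :
    ∃ y : σ → K, eval y H ≠ 0 ∧ ∀ i, F i ≠ 0 → eval y (F i) ≠ 0 := by
  classical
  have := Fintype.ofFinite ι
  set Q := H * ∏ i ∈ Finset.univ.filter (fun i => F i ≠ 0), F i with hQ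
  have hQ0 : Q ≠ 0 := by
    apply mul_ne_zero hH
    rw [Finset.prod_ne_zero_iff]
    intro i hi
    exact (Finset.mem_filter.1 hi).2
  obtain ⟨y, hy⟩ : ∃ y, eval y Q ≠ 0 := by
    by_contra hcon
    push Not at hcon
    exact hQ0 (MvPolynomial.funext fun y => by rw [hcon y, map_zero])
  rw [hQ, map_mul, map_prod] at hy
  refine ⟨y, left_ne_zero_of_mul hy, fun i hi => ?_⟩
  have h2 := right_ne_zero_of_mul hy
  rw [Finset.prod_ne_zero_iff] at h2
  exact h2 i (Finset.mem_filter.2 ⟨Finset.mem_univ i, hi⟩)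

/-- A linear combination of `N` polynomials of measure at most `c`. -/
theorem core_span {Y Z K : Type} [Fintype Y] [Fintype Z] [Field K] {al be : ℝ} {N : ℕ}
    (f : Fin N → MvPolynomial (Y ⊕ Z) K) (c : ℝ) (hf : ∀ b, BB al be (f b) c)
    {g : MvPolynomial (Y ⊕ Z) K} (hg : g ∈ Submodule.span K (Set.range f)) :
    BB al be g (N * c) := by
  rw [Submodule.mem_span_range_iff_exists_fun] at hg
  obtain ⟨a, rfl⟩ := hg
  have h : ∀ S : Finset (Fin N), BB al be (∑ i ∈ S, a i • f i) (S.card * c) := by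
    classical
    intro S
    induction S using Finset.induction_on with
    | empty => simpa using BB.zero
    | insert i S hi ih =>
      rw [Finset.sum_insert hi, Finset.card_insert_of_notMem hi]
      have h1 : BB al be (a i • f i) c := by
        rw [MvPolynomial.smul_eq_C_mul]
        exact pr_BBsmul Y Z K al be (f i) c (a i) (hf i)
      have h2 := BB.add h1 ih
      refine h2.mono ?_
      push_cast
      linarith
  have h3 := h Finset.univ
  rw [Finset.card_univ, Fintype.card_fin] at h3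
  exact h3

theorem core_pow (a b : ℝ) (N : ℕ) (ha : 1 ≤ a) (hb : 0 ≤ b) (hN : 1 ≤ N) :
    a ^ N + b ≤ (a + b) ^ N := by
  obtain ⟨M, rfl⟩ : ∃ M, N = M + 1 := ⟨N - 1, by omega⟩
  have h1 : 1 ≤ a ^ M := one_le_pow₀ ha
  have h2 : a ^ M ≤ (a + b) ^ M := pow_le_pow_left₀ (by linarith) (by linarith) _
  rw [pow_succ, pow_succ]
  nlinarith

/-- The measure of a root of a family of circuits. -/
theorem core_root (Y Z K : Type) [Fintype Y] [Fintype Z] [Field K] [CharZero K]
    (al G G' : ℝ) (s D e r nx : ℕ) (F : Fin (nx + 1) → Fin s → MvPolynomial (Y ⊕ Z) K)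
    (d : Fin s → ℕ) (i0 : Fin s) (R : Polynomial (MvPolynomial (Y ⊕ Z) K))
    (xs : Fin (nx + 1) → K) (g : MvPolynomial (Y ⊕ Z) K)
    (hF : ∀ b, IsCkt e r (F b) d) (hd : ∀ i, d i ≤ D)
    (hR0 : R ≠ 0) (hRg : R.eval g = 0) (hRn : R.natDegree ≤ nx) (hxs : Function.Injective xs)
    (hRF : ∀ b, R.eval (C (xs b)) = F b i0) (hG : G = Real.log (s + 1) + e + r + 1)
    (hG' : G' = G + Real.log (nx + 1)) (hal : 10 ≤ al)
    (hX : 2 * ((1601 * G') ^ (9 ^ (2 * D))) ^ 2 ≤ Real.exp (al / 2)) :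
    ∃ (y : Y ⊕ Z → K) (lam : ℝ), 0 < lam ∧ 1 / lam ≤ 4 * ((1601 * G') ^ (9 ^ (2 * D))) ^ 4 ∧
      ∀ k, 1 ≤ k → BB al (√2 * al) (homogeneousComponent k (tr y g))
        (Real.exp (6000 / lam ^ 3 - lam / 2 * k)) := by
  set L : ℝ := Real.log (nx + 1) with hL
  have hL0 : 0 ≤ L := Real.log_nonneg (by linarith [show (0 : ℝ) ≤ nx by positivity])
  have hls : 0 ≤ Real.log ((s : ℝ) + 1) :=
    Real.log_nonneg (by linarith [show (0 : ℝ) ≤ s by positivity])
  have hG1 : 1 ≤ G := by
    rw [hG]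
    have h1 : (0 : ℝ) ≤ e := by positivity
    have h2 : (0 : ℝ) ≤ r := by positivity
    linarith
  obtain ⟨hsg1, hlm0, hlm1, hsgX, hlmX⟩ := pr_RdBound G (2 * D) hG1
  set sg := (rd G (2 * D)).1 with hsg
  set lm := (rd G (2 * D)).2 with hlm
  set X : ℝ := (1601 * G') ^ (9 ^ (2 * D)) with hXdef
  have hGG : G ≤ G' := by linarith
  have hN1 : 1 ≤ 9 ^ (2 * D) := Nat.one_le_pow _ _ (by norm_num)
  have hX0 : (1601 * G) ^ (9 ^ (2 * D)) ≤ X :=
    pow_le_pow_left₀ (by linarith) (by linarith) _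
  have hXsg : sg + L ≤ X := by
    have h1 := core_pow (1601 * G) (1601 * L) (9 ^ (2 * D)) (by linarith) (by linarith) hN1
    have h2 : 1601 * G + 1601 * L = 1601 * G' := by rw [hG']; ring
    rw [h2] at h1
    linarith
  have hXlm : 1 / lm ≤ X := hlmX.trans hX0
  have hX1 : 1 ≤ X := by
    have : 1 ≤ 1 / lm := by rw [le_div_iff₀ hlm0]; linarith
    linarith
  obtain ⟨H, hH0, hH⟩ := root_main (Y ⊕ Z) K R g nx xs hR0 hRg hRn hxs
  obtain ⟨y, hyH, hyF⟩ := core_point (fun p : Fin (nx + 1) × Fin s => F p.1 p.2) H hH0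
  obtain ⟨v, hv, hw⟩ := hH y hyH
  have hck : ∀ b : Fin (nx + 1), ∀ k, 1 ≤ k →
      BB al (√2 * al) (homogeneousComponent k (tr y (R.eval (C (xs b)))))
        (Real.exp (sg - lm * k)) := by
    intro b k hk
    rw [hRF b]
    refine core_Ckt Y Z K al G s D e r (fun i => tr y (F b i)) d hal (core_tr_ckt (hF b) y) hd
      ?_ hG (le_trans ?_ hX) i0 k hk
    · intro i hi
      rw [root_tr_const]
      apply hyF (b, i)
      intro h0
      apply hi
      simp only at h0 ⊢
      rw [h0, map_zero]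
    · have : ((1601 * G) ^ (9 ^ (2 * D))) ^ 2 ≤ X ^ 2 :=
        pow_le_pow_left₀ (by positivity) hX0 _
      linarith
  set sg' := sg + L with hsg'
  have hsg'1 : 1 ≤ sg' := by linarith
  set lam := lm ^ 2 / (4 * sg' ^ 2) with hlam
  have hlam0 : 0 < lam := by positivity
  have hlamX : 1 / lam ≤ 4 * X ^ 4 := by
    have h1 : 1 / lam = 4 * sg' ^ 2 * (1 / lm) ^ 2 := by
      rw [hlam]; field_simp
    rw [h1]
    have h2 : sg' ^ 2 ≤ X ^ 2 := pow_le_pow_left₀ (by linarith) hXsg _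
    have h3 : (1 / lm) ^ 2 ≤ X ^ 2 := pow_le_pow_left₀ (by positivity) hXlm _
    calc 4 * sg' ^ 2 * (1 / lm) ^ 2 ≤ 4 * X ^ 2 * X ^ 2 := by gcongr
      _ = 4 * X ^ 4 := by ring
  refine ⟨y, lam, hlam0, hlamX, fun k hk => ?_⟩
  refine root_spanBB2 Y Z K al (√2 * al) v _ lam k hlam0 ?_ (hw k hk)
  intro p hp
  have hB1 : BB al (√2 * al) (v p) (Real.exp (sg' - lm * p.2)) := by
    have h1 := core_span (fun b : Fin (nx + 1) =>
      homogeneousComponent p.2 (tr y (R.eval (C (xs b))))) (Real.exp (sg - lm * p.2))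
      (fun b => hck b p.2 hp) (hv p)
    refine h1.mono (le_of_eq ?_)
    have h2 : Real.exp (sg' - lm * p.2) = Real.exp L * Real.exp (sg - lm * p.2) := by
      rw [← Real.exp_add]; congr 1; rw [hsg']; ring
    rw [h2, hL, Real.exp_log (by positivity)]
    push_cast
    ring
  have hhom : (v p).IsHomogeneous p.2 := by
    have h3 : Submodule.span K (Set.range fun b : Fin (nx + 1) =>
        homogeneousComponent p.2 (tr y (R.eval (C (xs b))))) ≤
        homogeneousSubmodule (Y ⊕ Z) K p.2 := by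
      rw [Submodule.span_le]
      rintro _ ⟨b, rfl⟩
      exact homogeneousComponent_isHomogeneous _ _
    exact h3 (hv p)
  have hB2 := core_BBphi Y Z K al (√2 * al) (v p) p.2 hhom
  have hcond : 2 * sg' / lm ≤ Real.exp (al / 2) := by
    refine le_trans ?_ hX
    have h1 : 2 * sg' / lm = 2 * (sg' * (1 / lm)) := by ring
    rw [h1, sq]
    have : sg' * (1 / lm) ≤ X * X := by
      apply mul_le_mul hXsg hXlm (by positivity) (by linarith)
    linarith
  rcases core_Step al sg' lm p.2 hal hsg'1 hlm0 hlm1 hp hcond with h | h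
  · exact hB2.mono h
  · exact hB1.mono h

end Pool.Agent.Work.MP_3c5c20_lc.QP
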