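import Pool.Agent.Work.MP_3c5c20_lc.QP.Core2

/-!
# Quasi-polynomial identity testing: the hard polynomial is not a root of a small circuit
-/

set_option autoImplicit false

namespace Pool.Agent.Work.MP_3c5c20_lc.QP

open MvPolynomial Pool.Agent.Work.MP_499dc6_lc.CD

theorem core_num1 (m n : ℕ) (hm : 30000 ≤ m) (hn : n = m ^ 10) :
    10 ≤ alp n ∧ (m : ℝ) ^ 2 ≤ Real.exp (alp n / 2) := by
  have hmR : (30000 : ℝ) ≤ m := by exact_mod_cast hm
  have hs := sqrt2_bounds
  have hlog : Real.log (n + 1) ≥ 10 * Real.log m := by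
    have h1 : (m : ℝ) ^ 10 ≤ n + 1 := by rw [hn]; push_cast; linarith
    have h2 := Real.log_le_log (by positivity) h1
    rw [Real.log_pow] at h2
    push_cast at h2
    exact h2
  have hlm : 2 ≤ Real.log m := by
    rw [Real.le_log_iff_exp_le (by positivity)]
    have h1 : Real.exp 2 = Real.exp 1 ^ 2 := by rw [← Real.exp_nat_mul]; norm_num
    have h2 := Real.exp_one_lt_d9
    have h3 : Real.exp 1 ^ 2 ≤ 3 ^ 2 := by
      apply pow_le_pow_left₀ (Real.exp_pos 1).le; linarith
    rw [h1]; linarith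
  have hal : 7 * Real.log m ≤ alp n := by
    unfold alp
    rw [le_div_iff₀ (by positivity)]
    nlinarith [hs.2]
  constructor
  · linarith
  · have h1 : (m : ℝ) ^ 2 = Real.exp (2 * Real.log m) := by
      rw [mul_comm, Real.exp_mul, Real.exp_log (by positivity)]
      norm_num
    rw [h1]
    apply Real.exp_le_exp.2
    linarith

/-- The circuit polynomial `f` with the variable `t0` as the variable of the univariate
polynomial and the polynomials `θ t` for the other variables. -/
noncomputable def dist {σ τ K : Type} [DecidableEq τ] [Field K] (t0 : τ)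
    (θ : τ → MvPolynomial σ K) (f : MvPolynomial τ K) : Polynomial (MvPolynomial σ K) :=
  aeval (fun t => if t = t0 then Polynomial.X else Polynomial.C (θ t)) f

theorem dist_eval {σ τ K : Type} [DecidableEq τ] [Field K] (t0 : τ)
    (θ : τ → MvPolynomial σ K) (f : MvPolynomial τ K) (a : MvPolynomial σ K) :
    (dist t0 θ f).eval a = aeval (fun t => if t = t0 then a else θ t) f := by
  have h : (((Polynomial.aeval a).restrictScalars K :
      Polynomial (MvPolynomial σ K) →ₐ[K] MvPolynomial σ K).comp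
        (aeval (fun t => if t = t0 then Polynomial.X else Polynomial.C (θ t)))) =
      aeval (fun t => if t = t0 then a else θ t) := by
    apply MvPolynomial.algHom_ext
    intro t
    simp only [AlgHom.comp_apply, aeval_X, AlgHom.restrictScalars_apply]
    split_ifs <;> simp
  have h2 := DFunLike.congr_fun h f
  rw [← h2]
  simp only [AlgHom.comp_apply, AlgHom.restrictScalars_apply, Polynomial.coe_aeval_eq_eval]
  rfl

/-- The hard polynomial is not a root of a nonzero polynomial with small circuits. -/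
theorem core (K τ : Type) [Field K] [CharZero K] [DecidableEq τ] (s D e e' r nx m n : ℕ)
    (z0 : Fin n) (F : Fin s → MvPolynomial τ K) (d : Fin s → ℕ) (i0 : Fin s)
    (hF : IsCkt e r F d) (hd : ∀ i, d i ≤ D) (t0 : τ)
    (θ : τ → MvPolynomial ((Fin (aa m) × Fin n × Fin n) ⊕ (Fin m × Fin n × Fin n)) K)
    (hθ : ∀ t, (θ t).totalDegree ≤ e') (hR0 : dist t0 θ (F i0) ≠ 0)
    (hRn : (dist t0 θ (F i0)).natDegree ≤ nx) (hm : 30000 ≤ m) (hn : n = m ^ 10)
    (hmG : (1601 * (Real.log (s + 1) + e * e' + r + 1 + Real.log (nx + 1))) ^ (45 * 81 ^ D)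
      ≤ (m : ℝ)) :
    (dist t0 θ (F i0)).eval (PW K m n z0) ≠ 0 := by
  intro hRg
  set G' : ℝ := Real.log (s + 1) + e * e' + r + 1 + Real.log (nx + 1) with hG'
  have hmR : (30000 : ℝ) ≤ m := by exact_mod_cast hm
  have hG'1 : 1 ≤ G' := by
    have h1 : 0 ≤ Real.log ((s : ℝ) + 1) :=
      Real.log_nonneg (by linarith [show (0 : ℝ) ≤ s by positivity])
    have h2 : 0 ≤ Real.log ((nx : ℝ) + 1) :=
      Real.log_nonneg (by linarith [show (0 : ℝ) ≤ nx by positivity])
    have h3 : (0 : ℝ) ≤ e * e' := by positivity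
    have h4 : (0 : ℝ) ≤ r := by positivity
    linarith
  set X : ℝ := (1601 * G') ^ (9 ^ (2 * D)) with hX
  have hXm : X ^ 45 ≤ m := by
    rw [hX, ← pow_mul]
    refine le_trans (le_of_eq ?_) hmG
    congr 1
    rw [pow_mul]
    norm_num
    ring
  have hX1601 : 1601 ≤ X := by
    rw [hX]
    have h1 : 1 ≤ 9 ^ (2 * D) := Nat.one_le_pow _ _ (by norm_num)
    calc (1601 : ℝ) ≤ 1601 * G' := by linarith
      _ = (1601 * G') ^ 1 := (pow_one _).symm
      _ ≤ (1601 * G') ^ (9 ^ (2 * D)) := pow_le_pow_right₀ (by linarith) h1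
  have hX0 : 0 ≤ X := by linarith
  obtain ⟨hal, hmexp⟩ := core_num1 m n hm hn
  have h2X : 2 * X ^ 2 ≤ Real.exp (alp n / 2) := by
    refine le_trans ?_ hmexp
    have h1 : X ^ 2 ≤ m := by
      refine le_trans ?_ hXm
      exact pow_le_pow_right₀ (by linarith) (by norm_num)
    nlinarith
  have hxs : Function.Injective (fun b : Fin (nx + 1) => ((b : ℕ) : K)) := by
    intro a b hab
    exact Fin.ext (Nat.cast_injective hab)
  obtain ⟨y, lam, hlam0, hlamX, hBB⟩ := core_root _ _ K (alp n)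
    (Real.log (s + 1) + ((e * e' : ℕ) : ℝ) + r + 1) G' s D (e * e') r nx
    (fun b i => aeval (fun t => if t = t0 then C ((b : ℕ) : K) else θ t) (F i)) d i0
    (dist t0 θ (F i0)) (fun b => ((b : ℕ) : K)) (PW K m n z0)
    (fun b => pr_CktSubst τ _ K s e e' r F d _ hF (fun i => by
      split_ifs
      · rw [totalDegree_C]; exact Nat.zero_le _
      · exact hθ i)) hd hR0 hRg hRn hxs (fun b => dist_eval t0 θ (F i0) _) rfl
    (by rw [hG']; push_cast; ring) hal h2X
  have hBi := core_PWhom K m n z0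
  have hhom : (PW K m n z0).IsHomogeneous (aa m + m) := pr_BiHom _ _ K _ _ _ hBi
  have htop := hBB (aa m + m) (by omega)
  have htt := pr_TransTop _ K (PW K m n z0) (aa m + m) y hhom
  have htt' : homogeneousComponent (aa m + m) (tr y (PW K m n z0)) = PW K m n z0 := htt
  rw [htt'] at htop
  have h1l : 0 < 1 / lam := by positivity
  refine core_contra K m n z0 hm hn (X ^ 15) (6000 / lam ^ 3) (lam / 2)
    (one_le_pow₀ (by linarith)) ?_ ?_ (by positivity) ?_ htop
  · rw [← pow_mul]; exact hXm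
  · have h1 : 6000 / lam ^ 3 = 6000 * (1 / lam) ^ 3 := by field_simp
    have h2 : (1 / lam) ^ 3 ≤ (4 * X ^ 4) ^ 3 := pow_le_pow_left₀ h1l.le hlamX _
    have h3 : (384000 : ℝ) ≤ X ^ 3 := by
      calc (384000 : ℝ) ≤ 1601 ^ 3 := by norm_num
        _ ≤ X ^ 3 := pow_le_pow_left₀ (by norm_num) hX1601 _
    rw [h1]
    calc 6000 * (1 / lam) ^ 3 ≤ 6000 * (4 * X ^ 4) ^ 3 := by linarith
      _ = 384000 * X ^ 12 := by ring
      _ ≤ X ^ 3 * X ^ 12 := by gcongr
      _ = X ^ 15 := by ring
  · have h1 : 1 / (lam / 2) = 2 * (1 / lam) := by field_simp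
    rw [h1]
    have h3 : (8 : ℝ) ≤ X ^ 11 := by
      calc (8 : ℝ) ≤ 1601 ^ 11 := by norm_num
        _ ≤ X ^ 11 := pow_le_pow_left₀ (by norm_num) hX1601 _
    calc 2 * (1 / lam) ≤ 2 * (4 * X ^ 4) := by linarith
      _ = 8 * X ^ 4 := by ring
      _ ≤ X ^ 11 * X ^ 4 := by gcongr
      _ = X ^ 15 := by ring

end Pool.Agent.Work.MP_3c5c20_lc.QP
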