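import Pool.Agent.Work.MP_3c5c20_lc.QP.RootDefs
import Pool.Agent.Work.MP_499dc6_lc.Bd.B03

/-!
# Roots: the recursion for the components of a simple root
-/

set_option autoImplicit false

namespace Pool.Agent.Work.MP_3c5c20_lc.QP

open MvPolynomial

section

variable {K : Type} [Field K] {A : Type} [CommRing A] [Algebra K A] {v : ℕ × ℕ → A}

theorem PS2_mono {k m m' : ℕ} (h : m ≤ m') : PS2 K v k m ≤ PS2 K v k m' := by
  unfold PS2
  apply Submodule.span_mono
  rintro x ⟨M, h1, h2, h3, h4⟩
  exact ⟨M, h1, h2, h3.trans h, h4⟩

theorem PS2_mul {k m k' m' : ℕ} {x y : A} (hx : x ∈ PS2 K v k m) (hy : y ∈ PS2 K v k' m') :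
    x * y ∈ PS2 K v (k + k') (m + m') := by
  unfold PS2 at *
  induction hx using Submodule.span_induction with
  | mem x hx =>
    obtain ⟨M, h1, h2, h3, rfl⟩ := hx
    induction hy using Submodule.span_induction with
    | mem y hy =>
      obtain ⟨N, g1, g2, g3, rfl⟩ := hy
      apply Submodule.subset_span
      refine ⟨M + N, ?_, ?_, ?_, ?_⟩
      · intro p hp
        rcases Multiset.mem_add.mp hp with h | h
        · exact h1 p h
        · exact g1 p h
      · rw [Multiset.map_add, Multiset.sum_add, h2, g2]
      · rw [Multiset.map_add, Multiset.sum_add]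
        omega
      · rw [Multiset.map_add, Multiset.prod_add]
    | zero =>
      rw [mul_zero]
      exact Submodule.zero_mem _
    | add y z _ _ hy hz =>
      rw [mul_add]
      exact Submodule.add_mem _ hy hz
    | smul c y _ hy =>
      rw [mul_smul_comm]
      exact Submodule.smul_mem _ _ hy
  | zero =>
    rw [zero_mul]
    exact Submodule.zero_mem _
  | add x z _ _ hx hz =>
    rw [add_mul]
    exact Submodule.add_mem _ hx hz
  | smul c x _ hx =>
    rw [smul_mul_assoc]
    exact Submodule.smul_mem _ _ hx

theorem PS2_single (i a : ℕ) (ha : 1 ≤ a) : v (i, a) ∈ PS2 K v a i := by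
  unfold PS2
  apply Submodule.subset_span
  refine ⟨{(i, a)}, ?_, ?_, ?_, ?_⟩
  · intro p hp
    rw [Multiset.mem_singleton] at hp
    subst hp
    exact ha
  · simp
  · simp
  · simp

theorem PS2_one : (1 : A) ∈ PS2 K v 0 0 := by
  unfold PS2
  apply Submodule.subset_span
  exact ⟨0, by simp, by simp, by simp, by simp⟩

end

section

variable {K σ : Type} [Field K]

/-- components of powers of `w` -/
theorem root_pow {w : MvPolynomial σ K} {v : ℕ × ℕ → MvPolynomial σ K} {k : ℕ}
    (h0 : homogeneousComponent 0 w = 0)
    (hw : ∀ b, 1 ≤ b → b < k → homogeneousComponent b w ∈ PS2 K v b (2 * b - 2)) :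
    ∀ i, 1 ≤ i → ∀ b, (b < k ∨ (b ≤ k ∧ 2 ≤ i)) →
      (b < i → homogeneousComponent b (w ^ i) = 0) ∧
      homogeneousComponent b (w ^ i) ∈ PS2 K v b (2 * b - 2 * i) := by
  intro i hi
  induction i, hi using Nat.le_induction with
  | base =>
    intro b hb
    have hb' : b < k := by omega
    rw [pow_one]
    rcases Nat.eq_zero_or_pos b with rfl | hb0
    · rw [h0]
      exact ⟨fun _ => rfl, Submodule.zero_mem _⟩
    · refine ⟨fun h => by omega, ?_⟩
      have h2 : 2 * b - 2 * 1 = 2 * b - 2 := by omega
      rw [h2]
      exact hw b hb0 hb'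
  | succ i hi ih =>
    intro b hb
    have hbk : b ≤ k := by omega
    rw [pow_succ, Pool.Agent.Work.MP_499dc6_lc.CD.pr_HcMul σ K (w ^ i) w b]
    constructor
    · intro hbi
      refine Finset.sum_eq_zero fun p hp => ?_
      have hp' := Finset.HasAntidiagonal.mem_antidiagonal.mp hp
      rcases Nat.eq_zero_or_pos p.2 with h | h
      · rw [h, h0, mul_zero]
      · rw [(ih p.1 (by omega)).1 (by omega), zero_mul]
    · refine Submodule.sum_mem _ fun p hp => ?_
      have hp' := Finset.HasAntidiagonal.mem_antidiagonal.mp hp
      rcases Nat.eq_zero_or_pos p.2 with h | h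
      · rw [h, h0, mul_zero]
        exact Submodule.zero_mem _
      · by_cases h1 : p.1 < i
        · rw [(ih p.1 (by omega)).1 h1, zero_mul]
          exact Submodule.zero_mem _
        · have h2 := PS2_mul (ih p.1 (by omega)).2 (hw p.2 h (by omega))
          rw [hp'] at h2
          exact PS2_mono (by omega) h2

/-- the components of a simple root -/
theorem root_rec (Q : Polynomial (MvPolynomial σ K)) (w : MvPolynomial σ K)
    (h0 : homogeneousComponent 0 w = 0) (hQ : Q.eval w = 0)
    (h1 : constantCoeff (Q.coeff 1) ≠ 0) :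
    ∀ k, 1 ≤ k → homogeneousComponent k w ∈
      PS2 K (fun p : ℕ × ℕ => homogeneousComponent p.2 (Q.coeff p.1)) k (2 * k - 2) := by
  intro k
  induction k using Nat.strong_induction_on with
  | _ k ih =>
    intro hk
    set v : ℕ × ℕ → MvPolynomial σ K := fun p => homogeneousComponent p.2 (Q.coeff p.1) with hv
    have hpow := root_pow (v := v) h0 (fun b hb hbk => ih b hbk hb)
    have hzero : ∀ i, homogeneousComponent 0 (Q.coeff i) = C (constantCoeff (Q.coeff i)) :=
      fun i => by rw [homogeneousComponent_zero]; rfl
    -- the component of the equation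
    have hsum : ∑ i ∈ Finset.range (Q.natDegree + 2),
        homogeneousComponent k (Q.coeff i * w ^ i) = 0 := by
      rw [← map_sum, ← Polynomial.eval_eq_sum_range' (by omega), hQ, map_zero]
    -- all terms except the term i = 1, a = 0
    have hterm : ∀ i, i ≠ 1 → homogeneousComponent k (Q.coeff i * w ^ i) ∈
        PS2 K v k (2 * k - 2) := by
      intro i hi
      rw [Pool.Agent.Work.MP_499dc6_lc.CD.pr_HcMul σ K (Q.coeff i) (w ^ i) k]
      refine Submodule.sum_mem _ fun p hp => ?_
      have hp' := Finset.HasAntidiagonal.mem_antidiagonal.mp hp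
      rcases Nat.eq_zero_or_pos i with rfl | hi0
      · rw [pow_zero]
        by_cases h : p.2 = 0
        · rw [h, homogeneousComponent_zero, coeff_zero_one, map_one, mul_one]
          have h2 : p.1 = k := by omega
          rw [h2]
          exact PS2_mono (by omega) (PS2_single (K := K) (v := v) 0 k hk)
        · have h2 : homogeneousComponent p.2 (1 : MvPolynomial σ K) = 0 := by
            rw [homogeneousComponent_of_mem ((mem_homogeneousSubmodule 0 _).mpr
              (isHomogeneous_one σ K)), if_neg h]
          rw [h2, mul_zero]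
          exact Submodule.zero_mem _
      · have hi2 : 2 ≤ i := by omega
        by_cases hb : p.2 < i
        · rw [(hpow i hi0 p.2 (by omega)).1 hb, mul_zero]
          exact Submodule.zero_mem _
        · have h3 := (hpow i hi0 p.2 (by omega)).2
          rcases Nat.eq_zero_or_pos p.1 with ha | ha
          · rw [ha, hzero, ← smul_eq_C_mul]
            apply Submodule.smul_mem
            have h4 : p.2 = k := by omega
            rw [h4] at h3 ⊢
            exact PS2_mono (by omega) h3
          · have h4 := PS2_mul (PS2_single (K := K) (v := v) i p.1 ha) h3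
            rw [hp'] at h4
            exact PS2_mono (by omega) h4
    -- the term i = 1
    have hone : homogeneousComponent k (Q.coeff 1 * w ^ 1) -
        constantCoeff (Q.coeff 1) • homogeneousComponent k w ∈ PS2 K v k (2 * k - 2) := by
      rw [pow_one, Pool.Agent.Work.MP_499dc6_lc.CD.pr_HcMul σ K (Q.coeff 1) w k,
        ← Finset.sum_erase_add _ _ (Finset.HasAntidiagonal.mem_antidiagonal.mpr (zero_add k) : (0, k) ∈ _)]
      simp only [hzero, ← smul_eq_C_mul]
      rw [add_sub_cancel_right]
      refine Submodule.sum_mem _ fun p hp => ?_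
      have hp1 := Finset.HasAntidiagonal.mem_antidiagonal.mp (Finset.mem_of_mem_erase hp)
      have hp2 := Finset.ne_of_mem_erase hp
      have ha : 1 ≤ p.1 := by
        by_contra h
        apply hp2
        apply Prod.ext <;> simp <;> omega
      rcases Nat.eq_zero_or_pos p.2 with h | h
      · rw [h, h0, mul_zero]
        exact Submodule.zero_mem _
      · have h4 := PS2_mul (PS2_single (K := K) (v := v) 1 p.1 ha) (ih p.2 (by omega) h)
        rw [hp1] at h4
        exact PS2_mono (by omega) h4
    -- conclusion
    have hmem : (1 : ℕ) ∈ Finset.range (Q.natDegree + 2) := by simp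
    rw [← Finset.sum_erase_add _ _ hmem] at hsum
    have h5 : ∑ i ∈ (Finset.range (Q.natDegree + 2)).erase 1,
        homogeneousComponent k (Q.coeff i * w ^ i) ∈ PS2 K v k (2 * k - 2) :=
      Submodule.sum_mem _ fun i hi => hterm i (Finset.ne_of_mem_erase hi)
    have h6 : constantCoeff (Q.coeff 1) • homogeneousComponent k w ∈ PS2 K v k (2 * k - 2) := by
      have h7 := Submodule.neg_mem _ (Submodule.add_mem _ h5 hone)
      have h8 : -(∑ i ∈ (Finset.range (Q.natDegree + 2)).erase 1,
          homogeneousComponent k (Q.coeff i * w ^ i) +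
          (homogeneousComponent k (Q.coeff 1 * w ^ 1) -
            constantCoeff (Q.coeff 1) • homogeneousComponent k w)) =
          constantCoeff (Q.coeff 1) • homogeneousComponent k w := by
        linear_combination -hsum
      rw [h8] at h7
      exact h7
    have h9 := Submodule.smul_mem _ (constantCoeff (Q.coeff 1))⁻¹ h6
    rw [smul_smul, inv_mul_cancel₀ h1, one_smul] at h9
    exact h9

end

end Pool.Agent.Work.MP_3c5c20_lc.QP
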