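import Pool.Agent.Work.MP_3c5c20_lc.QP.Root1

/-!
# Roots: interpolation, multiplicities, proof of `S_Root`
-/

set_option autoImplicit false

namespace Pool.Agent.Work.MP_3c5c20_lc.QP

open MvPolynomial

/-- coefficients as combinations of values -/
theorem root_interp {K A : Type} [Field K] [CommRing A] [Algebra K A] (R : Polynomial A) (n : ℕ)
    (hn : R.natDegree ≤ n) (xs : Fin (n + 1) → K) (hxs : Function.Injective xs) (i : ℕ) :
    ∃ c : Fin (n + 1) → K, R.coeff i = ∑ b, c b • R.eval (algebraMap K A (xs b)) := by
  classical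
  refine ⟨fun b => (Lagrange.basis Finset.univ xs b).coeff i, ?_⟩
  have h1 : ∀ i' ∈ Finset.range (n + 1),
      ∑ b, (Lagrange.basis Finset.univ xs b).coeff i * xs b ^ i' = if i = i' then 1 else 0 := by
    intro i' hi'
    have hi1 := Finset.mem_range.mp hi'
    have h2 := Lagrange.eq_interpolate (s := Finset.univ) (v := xs)
      (f := (Polynomial.X ^ i' : Polynomial K)) hxs.injOn (by
        rw [Polynomial.degree_X_pow, Finset.card_univ, Fintype.card_fin]
        exact_mod_cast hi1)
    have h3 := congrArg (fun f => Polynomial.coeff f i) h2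
    simp only [Polynomial.coeff_X_pow, Lagrange.interpolate_apply, Polynomial.finsetSum_coeff,
      Polynomial.coeff_C_mul, Polynomial.eval_pow, Polynomial.eval_X] at h3
    rw [h3]
    exact Finset.sum_congr rfl fun b _ => mul_comm _ _
  have h4 : ∀ b, R.eval (algebraMap K A (xs b)) =
      ∑ i' ∈ Finset.range (n + 1), (xs b ^ i') • R.coeff i' := by
    intro b
    rw [Polynomial.eval_eq_sum_range' (by omega : R.natDegree < n + 1)]
    refine Finset.sum_congr rfl fun i' _ => ?_
    rw [Algebra.smul_def, map_pow, mul_comm]
  simp only [h4, Finset.smul_sum, smul_smul]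
  rw [Finset.sum_comm]
  simp only [← Finset.sum_smul]
  rw [Finset.sum_congr rfl fun i' hi' => by rw [h1 i' hi']]
  by_cases hi : i ∈ Finset.range (n + 1)
  · rw [Finset.sum_eq_single i]
    · rw [if_pos rfl, one_smul]
    · intro b _ hb
      rw [if_neg (Ne.symm hb), zero_smul]
    · intro h
      exact absurd hi h
  · rw [Polynomial.coeff_eq_zero_of_natDegree_lt (by rw [Finset.mem_range] at hi; omega)]
    refine (Finset.sum_eq_zero fun i' hi' => ?_).symm
    rw [if_neg, zero_smul]
    rintro rfl
    exact hi hi'

section

variable {K σ : Type} [Field K]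

theorem root_tr_const (y : σ → K) (p : MvPolynomial σ K) :
    constantCoeff (tr y p) = eval y p := by
  unfold tr
  have h : (constantCoeff (σ := σ) (R := K)).comp
      ((aeval fun j => X j + C (y j) : MvPolynomial σ K →ₐ[K] MvPolynomial σ K) :
        MvPolynomial σ K →+* MvPolynomial σ K) = (eval y : MvPolynomial σ K →+* K) := by
    apply MvPolynomial.ringHom_ext
    · intro r
      simp
    · intro i
      simp
  exact congrArg (fun f : MvPolynomial σ K →+* K => f p) h

theorem root_const_eval (P : Polynomial (MvPolynomial σ K)) (a : MvPolynomial σ K)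
    (ha : constantCoeff a = 0) : constantCoeff (P.eval a) = constantCoeff (P.coeff 0) := by
  have h : constantCoeff (P.eval a) = (P.map (constantCoeff (σ := σ) (R := K))).eval
      (constantCoeff a) := by
    rw [Polynomial.eval_map, Polynomial.eval₂_at_apply]
  rw [h, ha, ← Polynomial.coeff_zero_eq_eval_zero, Polynomial.coeff_map]

end

theorem root_main : S_Root := by
  classical
  intro σ K _ _ _ R g n xs hR hg hn hxs
  obtain ⟨S, hS, hdvd⟩ := R.exists_eq_pow_rootMultiplicity_mul_and_not_dvd hR g
  set j := R.rootMultiplicity g with hj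
  have hj1 : 0 < j := (Polynomial.rootMultiplicity_pos hR).2 hg
  have hSg : S.eval g ≠ 0 := fun h => hdvd (Polynomial.dvd_iff_isRoot.2 h)
  refine ⟨S.eval g, hSg, fun y hy => ?_⟩
  set T : MvPolynomial σ K →+* MvPolynomial σ K := (tr y : MvPolynomial σ K →+* MvPolynomial σ K)
    with hT
  have hTa : ∀ p, T p = tr y p := fun p => rfl
  set x0 : K := eval y g with hx0
  set Rt := Polynomial.taylor (C x0) (R.map T) with hRt0
  set St := Polynomial.taylor (C x0) (S.map T) with hSt0
  set gt : MvPolynomial σ K := tr y g - C x0 with hgt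
  have hgt0 : constantCoeff gt = 0 := by
    rw [hgt, map_sub, root_tr_const, constantCoeff_C, sub_self]
  have hRt : Rt = (Polynomial.X - Polynomial.C gt) ^ j * St := by
    rw [hRt0, hS, Polynomial.map_mul, Polynomial.map_pow, Polynomial.taylor_mul,
      Polynomial.taylor_pow, Polynomial.map_sub, Polynomial.map_X, Polynomial.map_C, map_sub,
      Polynomial.taylor_X, Polynomial.taylor_C, hgt, map_sub, hTa]
    congr 2
    ring
  set Q := Polynomial.hasseDeriv (j - 1) Rt with hQ
  have htay : Polynomial.taylor gt Rt = Polynomial.X ^ j * Polynomial.taylor gt St := by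
    rw [hRt, Polynomial.taylor_mul, Polynomial.taylor_pow, map_sub, Polynomial.taylor_X,
      Polynomial.taylor_C, add_sub_cancel_right]
  have hQ0 : Q.eval gt = 0 := by
    rw [hQ, ← Polynomial.taylor_coeff, htay, Polynomial.coeff_X_pow_mul', if_neg (by omega)]
  have hQ1 : constantCoeff (Q.coeff 1) ≠ 0 := by
    have h1 : Polynomial.derivative Q = j • Polynomial.hasseDeriv j Rt := by
      rw [← Polynomial.hasseDeriv_one', hQ]
      have h2 := congrArg (fun f => f Rt) (Polynomial.hasseDeriv_comp
        (R := MvPolynomial σ K) 1 (j - 1))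
      simp only [LinearMap.comp_apply, LinearMap.smul_apply] at h2
      rw [h2, Nat.choose_one_right]
      have h3 : 1 + (j - 1) = j := by omega
      rw [h3]
    have h2 : (Polynomial.derivative Q).eval gt = j • T (S.eval g) := by
      rw [h1, Polynomial.eval_smul, ← Polynomial.taylor_coeff, htay,
        Polynomial.coeff_X_pow_mul', if_pos le_rfl, Nat.sub_self, Polynomial.taylor_coeff_zero,
        hSt0, Polynomial.taylor_eval, hgt, sub_add_cancel, ← hTa, Polynomial.eval_map,
        Polynomial.eval₂_at_apply]
    have h3 := root_const_eval (Polynomial.derivative Q) gt hgt0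
    rw [h2, Polynomial.coeff_derivative] at h3
    have h4 : constantCoeff (j • T (S.eval g)) = (j : K) * eval y (S.eval g) := by
      rw [map_nsmul, hTa, root_tr_const, nsmul_eq_mul]
    rw [h4] at h3
    have h5 : Q.coeff (0 + 1) * ((0 : ℕ) + 1 : MvPolynomial σ K) = Q.coeff 1 := by
      simp
    rw [h5] at h3
    rw [← h3]
    exact mul_ne_zero (Nat.cast_ne_zero.mpr (by omega)) hy
  refine ⟨fun p => homogeneousComponent p.2 (Q.coeff p.1), fun p => ?_, fun k hk => ?_⟩
  · -- combinations of values
    have hinj : Function.Injective (fun b => xs b - x0) := fun a b h => hxs (by simpa using h)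
    obtain ⟨c, hc⟩ := root_interp Rt n (by
      rw [hRt0, Polynomial.natDegree_taylor]
      exact Polynomial.natDegree_map_le.trans hn) (fun b => xs b - x0) hinj (p.1 + (j - 1))
    have h1 : ∀ b, Rt.eval (algebraMap K (MvPolynomial σ K) (xs b - x0)) =
        tr y (R.eval (C (xs b))) := by
      intro b
      rw [hRt0, Polynomial.taylor_eval, MvPolynomial.algebraMap_eq, map_sub, sub_add_cancel,
        ← hTa]
      have h2 : (C (xs b) : MvPolynomial σ K) = T (C (xs b)) := by
        rw [hTa]
        exact ((tr y).commutes (xs b)).symm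
      conv_lhs => rw [h2]
      rw [Polynomial.eval_map, Polynomial.eval₂_at_apply]
    have h3 : Q.coeff p.1 = ((p.1 + (j - 1)).choose (j - 1)) •
        ∑ b, c b • tr y (R.eval (C (xs b))) := by
      rw [hQ, Polynomial.hasseDeriv_coeff, hc, nsmul_eq_mul]
      congr 1
      exact Finset.sum_congr rfl fun b _ => by rw [h1 b]
    simp only [h3, map_nsmul, map_sum, map_smul]
    refine Submodule.smul_of_tower_mem _ _ (Submodule.sum_mem _ fun b _ => ?_)
    exact Submodule.smul_mem _ _ (Submodule.subset_span ⟨b, rfl⟩)
  · have h1 := root_rec Q gt (by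
      rw [homogeneousComponent_zero]
      have : coeff 0 gt = 0 := hgt0
      rw [this, map_zero]) hQ0 hQ1 k hk
    have h2 : homogeneousComponent k gt = homogeneousComponent k (tr y g) := by
      rw [hgt, map_sub, homogeneousComponent_of_mem (m := k) (n := 0)
        ((mem_homogeneousSubmodule 0 _).mpr (isHomogeneous_C σ x0)), if_neg (by omega), sub_zero]
    rw [h2] at h1
    exact PS2_mono (by omega) h1

end Pool.Agent.Work.MP_3c5c20_lc.QP
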