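import Pool.Agent.Work.MP_499dc6_lc.CD.Stmts2

/-!
# Quasi-polynomial identity testing: roots at the level of the measure `BB`, definitions

`PS2 K v k m`: span of the products of the `v (i, a)`, `a ≥ 1`, over the multisets of pairs with
`∑ a = k` and `∑ i ≤ m`.
-/

set_option autoImplicit false

namespace Pool.Agent.Work.MP_3c5c20_lc.QP

open MvPolynomial

/-- Span of the products of the `v (i, a)`, `a ≥ 1`, with `∑ a = k`, `∑ i ≤ m`. -/
noncomputable def PS2 (K : Type) [Field K] {A : Type} [CommRing A] [Algebra K A]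
    (v : ℕ × ℕ → A) (k m : ℕ) : Submodule K A :=
  Submodule.span K {x | ∃ M : Multiset (ℕ × ℕ), (∀ p ∈ M, 1 ≤ p.2) ∧
    (M.map Prod.snd).sum = k ∧ (M.map Prod.fst).sum ≤ m ∧ x = (M.map v).prod}

/-- Translation of the variables. -/
noncomputable def tr {σ K : Type} [Field K] (y : σ → K) :
    MvPolynomial σ K →ₐ[K] MvPolynomial σ K :=
  aeval fun j => X j + C (y j)

/-- A root `g` of `R` has its translate, component by component, in the span of the products of
components of translated values of `R` at constants. -/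
def S_Root : Prop :=
  ∀ (σ K : Type) [Fintype σ] [Field K] [CharZero K] (R : Polynomial (MvPolynomial σ K))
    (g : MvPolynomial σ K) (n : ℕ) (xs : Fin (n + 1) → K), R ≠ 0 → R.eval g = 0 →
    R.natDegree ≤ n → Function.Injective xs →
    ∃ H : MvPolynomial σ K, H ≠ 0 ∧ ∀ y : σ → K, eval y H ≠ 0 →
      ∃ v : ℕ × ℕ → MvPolynomial σ K,
        (∀ p, v p ∈ Submodule.span K (Set.range fun b : Fin (n + 1) =>
          homogeneousComponent p.2 (tr y (R.eval (C (xs b)))))) ∧
        ∀ k, 1 ≤ k → homogeneousComponent k (tr y g) ∈ PS2 K v k (2 * k)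

/-- The `BB` bound for elements of `PS2`. -/
def S_SpanBB2 : Prop :=
  ∀ (Y Z : Type) [Fintype Y] [Fintype Z] (K : Type) [Field K] (al be : ℝ)
    (v : ℕ × ℕ → MvPolynomial (Y ⊕ Z) K) (f : MvPolynomial (Y ⊕ Z) K) (lam : ℝ) (k : ℕ),
    0 < lam → (∀ p : ℕ × ℕ, 1 ≤ p.2 →
      Pool.Agent.Work.MP_499dc6_lc.CD.BB al be (v p) (Real.exp (-(lam * p.2)))) →
    f ∈ PS2 K v k (2 * k) →
    Pool.Agent.Work.MP_499dc6_lc.CD.BB al be f (Real.exp (6000 / lam ^ 3 - lam / 2 * k))

end Pool.Agent.Work.MP_3c5c20_lc.QP
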