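import Pool.Agent.Work.MP_3c5c20_lc.Code
import Pool.Agent.Work.MP_3c5c20_lc.PIT.Defs
import Pool.Agent.Work.MP_3c5c20_lc.QP.DepLang

/-!
# Quasi-polynomial identity testing: the machine, definitions

The seed `VV m n × Fin p → ℕ` is given by the digits of a number `c` in base `B`: the value at
`(v, b)` is the digit number `pos m n v * p + b`.
-/

set_option autoImplicit false

namespace Pool.Agent.Work.MP_3c5c20_lc.QP

open MvPolynomial Pool.Agent.PT Pool.Agent.PIT Pool.Agent.Work.MP_499dc6_lc.CD
  Pool.Agent.Work.MP_499dc6_lc.CDG Pool.Agent.Work.MP_3c5c20_lc.PIT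

/-! ### Digits, powers, polynomials -/

/-- Digit number `k` of `c` in base `b`. -/
def dgt (b k c : ℕ) : ℕ := (fun x => x / b)^[k] c % b

/-- The power `x ^ j` modulo `p`. -/
def pwm (p x j : ℕ) : ℕ := (fun t => t * x % p)^[j] 1

/-- The value at `x`, modulo `p`, of the polynomial whose coefficients are the `ka` last digits of
`i` in base `p`. -/
def polm (p ka i x : ℕ) : ℕ := ((List.range ka).map fun j => dgt p j i * pwm p x j).sum % p

/-! ### The generator, computed modulo `q` -/

/-- The value of the variable number `v` of the copy number `i`; the seed is given by the digits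
of `c` in base `B`. -/
def sval (p ka B c i v : ℕ) : ℕ := dgt B (v * p + polm p ka i v) c

/-- The step of the `Y` position `t`. -/
def tauN (t : ℕ) : ℕ := Nat.sqrt (t * t / 2)

/-- The matrix of the layer `l`, modulo `q` (`a` is the number of `Y` positions). -/
def gmat (q a n p ka B c i l x y : ℕ) : ℕ :=
  (List.range a).foldl
    (fun z t => if tauN t = l then z * sval p ka B c i ((t * n + x) * n + y) % q else z)
    (sval p ka B c i (((a + l) * n + x) * n + y) % q)

/-- One step of the dynamic programming. -/
def gstep (q a n p ka B c i : ℕ) (vec : List ℕ) (l : ℕ) : List ℕ :=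
  (List.range n).map fun y =>
    ((List.range n).map fun x => vec.getD x 0 * gmat q a n p ka B c i l x y).sum % q

/-- The value of the copy number `i` of the hard polynomial at the seed, modulo `q`. -/
def gval (q m a n p ka B c i : ℕ) : ℕ :=
  ((List.range m).foldl (gstep q a n p ka B c i)
    ((List.range n).map fun x => if x = 0 then 1 % q else 0)).getD 0 0

/-! ### The algorithm -/

/-- The environment: the variable number `i` of the list gets the value of the copy number `i`. -/
def genv (q m a n p ka B c : ℕ) (l : List Name) : Env :=
  (List.range l.length).map fun i => (l.getD i [], gval q m a n p ka B c i)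

/-- The test with given parameters. -/
def gtest (q m a n p ka B c : ℕ) (toks : List Tok) : Bool :=
  !decide (evalT q (genv q m a n p ka B c (dedupN (namesT toks))) toks = 0)

/-- The algorithm: all parameters less than `N`. -/
def galg (N : ℕ) (toks : List Tok) : Bool :=
  (List.range (N ^ 8)).any fun u =>
    gtest (dgt N 0 u + 1) (dgt N 1 u) (dgt N 2 u) (dgt N 3 u) (dgt N 4 u) (dgt N 5 u)
      (dgt N 6 u) (dgt N 7 u) toks

/-- The seed given by the digits of `c`. -/
noncomputable def seed (m n p B c : ℕ) (v : VV m n × Fin p) : ℕ :=
  dgt B (pos m n v.1 * p + v.2) c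

/-! ### Time classes -/

/-- Functions polynomially bounded in the size of the argument and `S`. -/
def GB {α : Type} [Enc α] (S B : α → ℕ) : Prop := ∃ j : ℕ, ∀ a, B a ≤ (sz a + S a + 2) ^ j

/-- Functions computable in time polynomial in the size of the argument and `S`. -/
def GTF {α β : Type} [Enc α] [Enc β] (S : α → ℕ) (f : α → β) : Prop :=
  ∃ B, TimeF f B ∧ GB S B

end Pool.Agent.Work.MP_3c5c20_lc.QP
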